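import Pool.Agent.L0h7.MS.Stm3

set_option autoImplicit false

namespace Pool.Agent.L0h98.MS

open Pool.Agent.L0h7.MS

theorem t_ISD : S_NBH → S_OPN → S_ISD := by
  intro hN hO r N hfp T hT hmin
  obtain ⟨S, hS, hS2⟩ := hN r N.1 hfp
  have e : ({N} : Set (Marked r)) = (⋂ s ∈ S, {N' : Marked r | s ∈ N'.1}) ∩
      ⋂ t ∈ T, {N' : Marked r | t ∈ N'.1}ᶜ := by
    ext N'
    simp only [Set.mem_singleton_iff, Set.mem_inter_iff, Set.mem_iInter, Set.mem_compl_iff]
    constructor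
    · rintro rfl
      exact ⟨fun s hs => hS s hs, fun t ht => hT t ht⟩
    · rintro ⟨h1, h2⟩
      by_contra hne
      obtain ⟨t, ht, htN⟩ := hmin N' (hS2 N'.1 N'.2.1 fun s hs => h1 s hs) hne
      exact h2 t ht htN
  rw [e]
  exact (isOpen_biInter_finset fun s _ => (hO.1 r s).isOpen).inter
    (isOpen_biInter_finset fun t _ => (hO.1 r t).compl.isOpen)

end Pool.Agent.L0h98.MS
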